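import Mathlib
import Pool.Agent.H17Z.Fin

/-!
# Embedding problems over the affine line over a finite field

Let `κ` be ANY finite field, `p` its characteristic, `E` a finite group, `p(E)` the subgroup generated
by the elements of `p`-power order and let `E / p(E)` be cyclic (the necessary condition in
Abhyankar's conjecture on the groups which occur over the affine line over `κ`). Let `N` be a normal
subgroup of `E` which has a series of normal subgroups of `E` whose factors are `p`-groups, or of
order prime to `p` and centralised by `p(E)` (`Hyp p E N`; for example, any central subgroup `N`).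

1. If `L` is a finite Galois extension of `κ(X)`, unramified over the affine line `Spec κ[X]`, with
   group `E / N`, then `L` is contained in such an extension with group `E`: every embedding problem
   `E → Gal(L/κ(X))` with kernel `N` has a proper solution which is unramified over the affine line.
2. `E` occurs over the affine line over `κ` if and only if `E / N` does.
3. `p` odd, `G` any finite perfect group (no realization of `G` is assumed): for infinitely many `n`
   the group `G ≀ A_n` and all finite perfect central extensions `E` of `G ≀ A_n` (for example its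
   universal central extension, or `G ≀ 2.A_n = G ^ n ⋊ 2.A_n`) occur over the affine line over `κ`,
   in particular over `κ(X)`, and regularly over every extension field `K` of `κ`.

Proof of 1 for kernels of order prime to `p`: over the algebraic closure of `κ` the lift of the
geometric part exists (Tsen's theorem, elementary 2-cocycles, divisors modulo `ℓ`), is unramified, and
is unique, because the affine line has no coverings of prime degree `ℓ ≠ p`; so it commutes with the
Frobenius automorphism and descends to `κ`. For kernels which are `p`-groups: Artin-Schreier theory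
with elements of trace one, and a counting argument.
-/

set_option autoImplicit false

namespace Pool.Agent.Results.MP_7f581e_nt.AffineLineEmbeddings

open Polynomial
open Pool.Agent.H17Z (pE Hyp)

/-- The subgroup generated by the elements of `p`-power order. -/
theorem pE_def (p : ℕ) (E : Type) [Group E] :
    pE p E = Subgroup.closure {g : E | ∃ k : ℕ, g ^ p ^ k = 1} := rfl

/-- The Galois group of `L` over `κ(X)`. -/
def GalX (κ L : Type) [Field κ] [Field L] [Algebra (RatFunc κ) L] : Type := L ≃ₐ[RatFunc κ] L

noncomputable instance (κ L : Type) [Field κ] [Field L] [Algebra (RatFunc κ) L] :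
    Group (GalX κ L) := (inferInstance : Group (L ≃ₐ[RatFunc κ] L))

/-- The action of an element of the Galois group on an element of the field. -/
noncomputable def GalX.act {κ L : Type} [Field κ] [Field L] [Algebra (RatFunc κ) L] (σ : GalX κ L) (a : L) : L :=
  (show L ≃ₐ[RatFunc κ] L from σ) a

/-- The field `L`, a `κ[X]`-algebra, is unramified over `κ[X]`: every prime ideal of the integral
closure of `κ[X]` in `L` is unramified over `κ[X]`. -/
def UnramifiedOver (κ L : Type) [Field κ] [Field L] [Algebra κ[X] L] : Prop :=
  ∀ (q : Ideal (integralClosure κ[X] L)) (_ : q.IsPrime), Algebra.IsUnramifiedAt κ[X] q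

/-- An extension of `κ(X)` as a `κ[X]`-algebra. -/
noncomputable def polyAlgebra (κ L : Type) [Field κ] [Field L] [Algebra (RatFunc κ) L] :
    Algebra κ[X] L :=
  ((algebraMap (RatFunc κ) L).comp (algebraMap κ[X] (RatFunc κ))).toAlgebra

/-- `L`, an extension of `κ(X)`, is unramified over the affine line. -/
def EtaleOverLine (κ L : Type) [Field κ] [Field L] [Algebra (RatFunc κ) L] : Prop :=
  @UnramifiedOver κ L _ _ (polyAlgebra κ L)

/-- `L` is a finite Galois extension of `κ(X)`, unramified over the affine line. -/
def LineGalois (κ L : Type) [Field κ] [Field L] [Algebra (RatFunc κ) L] : Prop :=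
  FiniteDimensional (RatFunc κ) L ∧ IsGalois (RatFunc κ) L ∧ EtaleOverLine κ L

/-- `H` is the Galois group of a finite Galois extension of `κ(X)` unramified over the affine line. -/
def OccursOverLine (κ H : Type) [Field κ] [Group H] : Prop :=
  ∃ (L : Type) (_ : Field L) (_ : Algebra (RatFunc κ) L), LineGalois κ L ∧
    Nonempty (GalX κ L ≃* H)

/-- `γ : Gal(M/κ(X)) ≃ E` is compatible with `π : E → Gal(L/κ(X))`: every `σ` acts on `L` as
`π (γ σ)`. -/
def Restricts {κ L M E : Type} [Field κ] [Field L] [Field M] [Algebra (RatFunc κ) L]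
    [Algebra (RatFunc κ) M] [Algebra L M] [Group E] (π : E →* GalX κ L) (γ : GalX κ M ≃* E) : Prop :=
  ∀ (σ : GalX κ M) (a : L), σ.act (algebraMap L M a) = algebraMap L M ((π (γ σ)).act a)

/-- The embedding problem `π : E → Gal(L/κ(X))` has a proper solution unramified over the affine line:
`L` is contained in a finite Galois extension `M` of `κ(X)`, unramified over the affine line, with an
isomorphism `γ` of `Gal(M/κ(X))` with `E` such that `σ` acts on `L` as `π (γ σ)`. -/
def SolvableOverLine (κ L E : Type) [Field κ] [Field L] [Algebra (RatFunc κ) L] [Group E]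
    (π : E →* GalX κ L) : Prop :=
  ∃ (M : Type) (_ : Field M) (_ : Algebra (RatFunc κ) M) (_ : Algebra L M),
    IsScalarTower (RatFunc κ) L M ∧ LineGalois κ M ∧ ∃ γ : GalX κ M ≃* E, Restricts π γ

/-- Every element of `F` which is algebraic over `K` is in `K`. -/
def AlgebraicallyClosedIn (K F : Type) [Field K] [Field F] [Algebra K F] : Prop :=
  ∀ y : F, IsAlgebraic K y → y ∈ Set.range (algebraMap K F)

/-- `A` occurs regularly over `K`: it is the Galois group of a finite Galois extension `F` of `K(t)` in
which `K` is algebraically closed. -/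
def OccursRegularly (K A : Type) [Field K] [Group A] : Prop :=
  ∃ (F : Type) (_ : Field F) (_ : Algebra (RatFunc K) F) (_ : Algebra K F),
    IsScalarTower K (RatFunc K) F ∧ FiniteDimensional (RatFunc K) F ∧ IsGalois (RatFunc K) F ∧
    Nonempty (GalX K F ≃* A) ∧ AlgebraicallyClosedIn K F

/-- The alternating wreath product `G ≀ A_n = G ^ n ⋊ A_n`, as a subgroup of `G ≀ S_n`. -/
def AltWreath (G : Type) [Group G] (n : ℕ) : Type := Pool.Agent.Y793.AWr G n

instance (G : Type) [Group G] (n : ℕ) : Group (AltWreath G n) :=
  (inferInstance : Group (Pool.Agent.Y793.AWr G n))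

/-- Part 1: embedding problems over the affine line. -/
def EmbeddingTheorem (p : ℕ) (κ : Type) [Field κ] : Prop :=
  ∀ (L : Type) [Field L] [Algebra (RatFunc κ) L], LineGalois κ L →
    ∀ (E : Type) [Group E] [Finite E] (π : E →* GalX κ L), Function.Surjective π →
      IsCyclic (E ⧸ pE p E) → Hyp p E π.ker → SolvableOverLine κ L E π

/-- Part 2: `E` occurs over the affine line if and only if `E / N` does. -/
def QuotientTheorem (p : ℕ) (κ : Type) [Field κ] : Prop :=
  ∀ (E : Type) [Group E] [Finite E] (N : Subgroup E) [N.Normal],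
    IsCyclic (E ⧸ pE p E) → Hyp p E N → (OccursOverLine κ (E ⧸ N) ↔ OccursOverLine κ E)

/-- `E` occurs over the affine line over `κ` and regularly over all extension fields of `κ`. -/
def OccursBoth (κ E : Type) [Field κ] [Group E] : Prop :=
  OccursOverLine κ E ∧ ∀ (K : Type) [Field K] [Algebra κ K], OccursRegularly K E

/-- Part 3: the groups `G ≀ A_n` and their perfect central extensions `π : E → G ≀ A_n`, for
infinitely many `n`. -/
def CentralTheorem (κ : Type) [Field κ] : Prop :=
  ∀ (G : Type) [Group G] [Finite G], commutator G = ⊤ → ∀ n₀ : ℕ, ∃ n ≥ n₀,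
    OccursBoth κ (AltWreath G n) ∧
    ∀ (E : Type) [Group E] [Finite E] (π : E →* AltWreath G n), commutator E = ⊤ →
      Function.Surjective π → π.ker ≤ Subgroup.center E → OccursBoth κ E

open Pool.Agent.Y140.AW in
theorem occ_of {κ H : Type} [Field κ] [Group H] (h : UnrAff κ H) : OccursOverLine κ H := by
  obtain ⟨L, i1, i2, i3, i4, i5, i6, γ, hU⟩ := h
  have h3 : i3 = polyAlgebra κ L :=
    Algebra.algebra_ext _ _ fun x => @IsScalarTower.algebraMap_apply κ[X] (RatFunc κ) L _ _ _ _ i2 i3
      i4 x
  subst h3
  exact ⟨L, i1, i2, ⟨i5, i6, hU⟩, γ⟩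

open Pool.Agent.Y140.AW in
theorem to_occ {κ H : Type} [Field κ] [Group H] (h : OccursOverLine κ H) : UnrAff κ H := by
  obtain ⟨L, i1, i2, ⟨i5, i6, hU⟩, γ⟩ := h
  letI : Algebra κ[X] L := polyAlgebra κ L
  exact ⟨L, i1, i2, this, IsScalarTower.of_algebraMap_eq fun _ => rfl, i5, i6, γ, hU⟩

theorem both_of {κ E : Type} [Field κ] [Finite κ] [Group E] [Finite E] (hE : commutator E = ⊤)
    (h : Pool.Agent.Y140.AW.UnrAff κ E) : OccursBoth κ E := by
  refine ⟨occ_of h, fun K _ _ => ?_⟩
  obtain ⟨F, i1, i2, i3, i4, i5, i6, γ, h2⟩ := Pool.Agent.H17Z.regular_of_perfect κ E hE h K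
  exact ⟨F, i1, i2, i3, i4, i5, i6, γ, h2⟩

theorem result (p : ℕ) [Fact p.Prime] (κ : Type) [Field κ] [Finite κ] [CharP κ p] :
    EmbeddingTheorem p κ ∧ QuotientTheorem p κ ∧ (p ≠ 2 → CentralTheorem κ) := by
  refine ⟨?_, ?_, ?_⟩
  · intro L _ _ hL E _ _ π hπ hc hH
    obtain ⟨hfd, hgal, hU⟩ := hL
    letI : Algebra κ[X] L := polyAlgebra κ L
    haveI : IsScalarTower κ[X] (RatFunc κ) L := IsScalarTower.of_algebraMap_eq fun _ => rfl
    obtain ⟨M, i1, i2, i3, i4, i5, i6, i7, i8, γ, h1, h2⟩ :=
      Pool.Agent.H17Z.ep p κ L hU E π hπ hc hH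
    have h3 : i3 = polyAlgebra κ M :=
      Algebra.algebra_ext _ _ fun x => @IsScalarTower.algebraMap_apply κ[X] (RatFunc κ) M _ _ _ _ i2
        i3 i4 x
    subst h3
    exact ⟨M, i1, i2, i5, i6, ⟨i7, i8, h2⟩, γ, h1⟩
  · intro E _ _ N _ hc hH
    exact ⟨fun h => occ_of ((Pool.Agent.H17Z.occ_iff p κ E N hc hH).1 (to_occ h)),
      fun h => occ_of ((Pool.Agent.H17Z.occ_iff p κ E N hc hH).2 (to_occ h))⟩
  · intro hp G _ _ hG n₀
    obtain ⟨n, hn, h1, h2⟩ := Pool.Agent.H17Z.central_main p hp κ G hG (n₀ + 5)
    have hfin : Finite (Pool.Agent.H391R2.Wr G n) := Pool.Agent.H391R2.T4.finite_wr G n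
    have hfin2 : Finite (Pool.Agent.Y793.AWr G n) := inferInstance
    have hperf : commutator (Pool.Agent.Y793.AWr G n) = ⊤ :=
      Pool.Agent.Y241.WR.t_perf G hG n (by omega)
    exact ⟨n, by omega, both_of (E := Pool.Agent.Y793.AWr G n) hperf h1,
      fun E _ _ π hE hπ hN => both_of hE (h2 E π hE hπ hN).1⟩

end Pool.Agent.Results.MP_7f581e_nt.AffineLineEmbeddings
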