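import Mathlib
import Pool.Agent.N70.PP.Voc
import Pool.Agent.N70.EP.VocC
import Pool.Agent.H43X.VocD
import Pool.Agent.H43X.FinD

/-!
# `G ≀ A_n` over `F_p(X)` for almost all multiples `n` of `lcm(2, p)`, every prime `p`

Let `p` be any prime (`p = 2` is included). No realization of the groups `G`, `ker α`, `B` below is
assumed.

1. Let `G` be any finite perfect group. For almost all multiples `n` of `lcm(2, p)` (natural density,
   `AlmostAllMultiples`) the wreath product `G ≀ A_n` occurs over `F_p(X)`. More precisely, if `b ≥ 4`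
   is even, `r` is odd and `r ≥ Bound |G| b = ((3 |G| b! + 2)!) ^ 3`, then this holds for all large
   `n` in the residue class `Degrees p (b r)`: `n = b r p (2 k + 1)` if `p` is odd,
   `n = b r (8 k + 1)` if `p = 2`.
2. Let `α : B → W` be a surjection of finite groups whose kernel is perfect. For a homomorphism
   `χ : W → {1, -1}` let `TwPow α χ n` be the group of all `(x, w)`, `x` in the wreath product
   `B ≀ S_n`, `w` in `W`, such that all coordinates of `x` are mapped to `w` by `α` and the sign of the
   permutation of `x` is `χ w`. It is an extension of `W` by `(ker α) ≀ A_n`.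
   * For almost all multiples `n` of `4 p |W|` the groups `TwPow α 1 n` and `W` occur over the same
     fields, and all embedding problems with the projection `TwPow α 1 n → W` are solvable
     (`First`). This holds for all large multiples of `4 p |W| k`, for every large `k`.
   * For almost all multiples `n` of `lcm(2, p)`, and for all large `n` in the classes
     `Degrees p (b r)`, `b ≥ 4` even, `r` odd, `r ≥ Bound |ker α| b`, we have for all characters `χ` at
     the same time (`Second`): `TwPow α χ n` occurs over `F_p(X)` if some subgroup `D` of `B` with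
     `α(D) = W` does; the embedding problems with the projection to `W` are solvable if those with
     `α` are weakly solvable; the conclusions of `First` hold for all `χ` if `α` splits.

The statements on the field `F_p(X)` hold for `k(X)`, `k` any field of characteristic `p`, for all
Hilbertian fields of characteristic `p`, and for regular realizations over all fields of
characteristic `p`; `n` does not depend on them.

The starting results `AlternatingWreath`, `AlternatingFibrePowers` are for odd `p` and the sparse set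
of degrees `n = q + 6 r p + 1`, `q` a prime.
-/

set_option autoImplicit false

namespace Pool.Agent.Results.MP_7f581e_nt.AlmostAllDegrees

open Pool.Agent.N70.EP.Voc Pool.Agent.N70.PP.Voc
open Pool.Agent.H43X.VocD (Degrees Bound)

/-- If an embedding problem with `α : B → W = Gal(L/K)`, `K` a field of characteristic `p`, has a
weak solution, then the one with `π : E → W = Gal(L/K)` is solvable. -/
def SolvableIfWeak (p : ℕ) {B E W : Type} [Group B] [Group E] [Group W] (α : B →* W)
    (π : E →* W) : Prop :=
  ∀ (K L : Type) [Field K] [CharP K p] [Field L] [Algebra K L] [FiniteDimensional K L]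
    [IsGalois K L] (ε : (L ≃ₐ[K] L) ≃* W), WeakSolutionOver (ε.symm.toMonoidHom.comp α) K →
    Solvable (ε.symm.toMonoidHom.comp π)

/-- The first theorem for the number `n`. -/
def First (p : ℕ) {B W : Type} [Group B] [Group W] (α : B →* W) (χ : W →* ℤˣ) (n : ℕ) : Prop :=
  OccursIff p (TwPow α χ n) W ∧ SolvableAll p (twPr α χ n)

/-- The second theorem for the number `n`. -/
def Second (p : ℕ) {B W : Type} [Group B] [Group W] (α : B →* W) (χ : W →* ℤˣ) (n : ℕ) : Prop :=
  (∀ D : Subgroup B, (∀ w : W, ∃ d ∈ D, α d = w) → OccursIf p (TwPow α χ n) D) ∧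
    SolvableIfWeak p α (twPr α χ n) ∧ ((∃ s : W →* B, ∀ w, α (s w) = w) → First p α χ n)

theorem result (p : ℕ) [Fact p.Prime] :
    (∀ (G : Type) [Group G] [Finite G], commutator G = ⊤ →
      AlmostAllMultiples (Nat.lcm 2 p) (fun n => OccursAll p (AltWreath G n)) ∧
      ∀ b r : ℕ, Even b → 4 ≤ b → Odd r → Bound (Nat.card G) b ≤ r →
        ∃ n₀ : ℕ, ∀ n ≥ n₀, n ∈ Degrees p (b * r) → OccursAll p (AltWreath G n)) ∧
    ∀ (B W : Type) [Group B] [Finite B] [Group W] [Finite W] (α : B →* W),
      Function.Surjective α → commutator α.ker = ⊤ →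
      (AlmostAllMultiples (4 * p * Nat.card W) (First p α 1) ∧
        ∃ k₀ : ℕ, ∀ k ≥ k₀, ∃ n₀ : ℕ, ∀ n ≥ n₀, 4 * p * Nat.card W * k ∣ n → First p α 1 n) ∧
      AlmostAllMultiples (Nat.lcm 2 p) (fun n => ∀ χ : W →* ℤˣ, Second p α χ n) ∧
      ∀ b r : ℕ, Even b → 4 ≤ b → Odd r → Bound (Nat.card α.ker) b ≤ r →
        ∃ n₀ : ℕ, ∀ n ≥ n₀, n ∈ Degrees p (b * r) → ∀ χ : W →* ℤˣ, Second p α χ n := by
  refine ⟨fun G _ _ hG => ⟨Pool.Agent.H43X.genG_almost Pool.Agent.H43X.t_GRB Pool.Agent.H43X.den p
    G hG, fun b r hb hb4 hr hr2 => ?_⟩, fun B W _ _ _ _ α hα hperf =>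
    ⟨⟨Pool.Agent.H43X.genA_almost Pool.Agent.H43X.den p α hα hperf,
      Pool.Agent.H43X.genA p α hα hperf⟩,
      Pool.Agent.H43X.genB_almost Pool.Agent.H43X.t_GRB Pool.Agent.H43X.den p α hα hperf,
      fun b r hb hb4 hr hr2 => ?_⟩⟩
  · obtain ⟨n₀, hn₀⟩ := Pool.Agent.H43X.genG Pool.Agent.H43X.t_GRB p G hG b r hb hb4 hr hr2
    exact ⟨n₀, fun n hn hd => hn₀ n hn (Pool.Agent.H43X.degE_of hd)⟩
  · obtain ⟨n₀, hn₀⟩ := Pool.Agent.H43X.genB Pool.Agent.H43X.t_GRB p α hα hperf b r hb hb4 hr hr2
    exact ⟨n₀, fun n hn hd => hn₀ n hn (Pool.Agent.H43X.degE_of hd)⟩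

end Pool.Agent.Results.MP_7f581e_nt.AlmostAllDegrees
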