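import Mathlib
import Pool.Agent.H43X.VocT
import Pool.Agent.H43X.StD

/-!
# Compositions of alternating steps, and infinite towers, over `F_p(X)` for every prime `p`

The file `AlmostAllDegrees.lean` treats one extension of `W` by `(ker α) ≀ A_n`. Here the steps are
combined with each other, with the extensions by the kernels of `KernelsOfAlmostEveryDegree.lean`,
with the steps of the starting library, and in infinite sequences. The definitions are in the files
`Pool/Agent/H43X/Voc.lean`, `Pool/Agent/H43X/VocT.lean`, `Pool/Agent/H43X/VocD.lean`,
`Pool/Agent/N70/EP/Voc.lean`, `Pool/Agent/N70/EP/VocC.lean`, `Pool/Agent/N70/PP/Voc.lean`,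
`Pool/Agent/TH444/TW/ClsDef.lean`:

* For a homomorphism `α : B → W` and a character `χ : W → {1, -1}`, `TwPow α χ n` is the group of all
  `(x, ρ)` with `x` in the wreath product `B ≀ S_n`, `ρ` in `W`, such that `α` maps all coordinates
  of `x` to `ρ` and the sign of the permutation of `x` is `χ ρ`; `twPr α χ n (x, ρ) = ρ`. The kernel
  of `twPr α χ n` is `(ker α) ≀ A_n`.
* `FullSet p g S`: `S` contains almost all multiples of `lcm(2, p)` (natural density one), and all
  large numbers of certain residue classes.
* `AllFull p A₁ A₂ A₃`: for every surjection `α : B → W` of finite groups with perfect kernel `A₁ α`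
  contains almost all multiples of `4 p |W|` and `FullSet p |ker α| (A₂ α)`; for every nontrivial
  finite perfect group `G` with trivial centre `FullSet p |G| (A₃ G)`.
* `StepP p A₁ A₂ A₃` is the smallest class of homomorphisms which contains the class `Cls F_p` of the
  starting results (for example all split epimorphisms with a finite abelian kernel), all
  `twPr α 1 n`, `α` a surjection with perfect kernel, `n` in `A₁ α`, all `twPr α χ n`, `n` in `A₂ α`,
  `χ` any character, if `α` is a homomorphism with perfect kernel which splits, or is in the class, or
  whose restriction to a subgroup is surjective and in the class, and all epimorphisms with a kernel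
  in the class `KerP p A₃`, and which is closed under composition and quotients. The class `KerP p A₃`
  of kernels contains the groups `G ≀ A_n`, `n` in `A₃ G`, for the `G` whose inner automorphisms have a
  complement in `Aut G`.
* `OccursIf p X Y`: `X` occurs over `k(X)` for all fields `k` of characteristic `p` (for example
  `F_p`) for which `Y` does, the same for Hilbertian fields and for regular realizations.
  `SolvableAll p π`: all embedding problems given by `π` over fields of characteristic `p` have
  regular solutions, and proper solutions if the field is Hilbertian.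
* `RegularTower f e₀`, `ProperTower f e₀`: for a sequence `Gal(L/K) = W 0 ← W 1 ← W 2 ← ...` the
  projection of the inverse limit to `Gal(L/K)` has a regular solution over `K(t)`, a proper solution
  over `K`.

The theorem: for every prime `p` there are such full sets, which do not depend on any field, with:

1. If `f : W' → W` is in the class `StepP p A₁ A₂ A₃` and `W` is finite, then `W'` is finite, occurs
   over `F_p(X)` if `W` does (for example if `W = 1`), and all embedding problems given by `f` are
   solvable.
2. If the embedding problem `α : B → Gal(L/K)` has perfect kernel and a weak solution, then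
   `twPr α χ n` is solvable for all `χ` and all `n` in `A₂ α`.
3. All infinite sequences of steps which start with `Gal(L/K)`, `K` any field of characteristic `p`,
   have regular solutions, and proper solutions if `K` is Hilbertian, for example `K = F_p(X)`.
-/

set_option autoImplicit false

namespace Pool.Agent.Results.MP_7f581e_nt.AlternatingSteps

open Pool.Agent.N70.EP.Voc Pool.Agent.N70.PP.Voc Pool.Agent.H43X.Voc Pool.Agent.H43X.VocT

theorem result (p : ℕ) [Fact p.Prime] :
    ∃ (A₁ A₂ : ∀ (W B : Type) [Group W] [Group B], (B →* W) → Set ℕ)
      (A₃ : ∀ (G : Type) [Group G], Set ℕ), AllFull p A₁ A₂ A₃ ∧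
      (∀ (W W' : Type) [Group W] [Group W'] [Finite W] (f : W' →* W), StepP p A₁ A₂ A₃ f →
        Finite W' ∧ OccursIf p W' W ∧ SolvableAll p f) ∧
      (∀ (K L B : Type) [Field K] [CharP K p] [Field L] [Algebra K L] [FiniteDimensional K L]
        [IsGalois K L] [Group B] [Finite B] (α : B →* (L ≃ₐ[K] L)), commutator α.ker = ⊤ →
        WeakSolutionOver α K → ∀ χ : (L ≃ₐ[K] L) →* ℤˣ, ∀ n ∈ A₂ (L ≃ₐ[K] L) B α,
          Solvable (twPr α χ n)) ∧
      ∀ (K L : Type) [Field K] [CharP K p] [Field L] [Algebra K L] [FiniteDimensional K L]
        [IsGalois K L] (W : ℕ → Type) [∀ i, Group (W i)] (f : ∀ i, W (i + 1) →* W i)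
        (e₀ : W 0 ≃* (L ≃ₐ[K] L)), (∀ i, StepP p A₁ A₂ A₃ (f i)) →
        RegularTower f e₀ ∧ (Hilbertian K → ProperTower f e₀) := by
  refine ⟨fun W B _ _ α => Pool.Agent.H43X.setA p W B α,
    fun W B _ _ α => Pool.Agent.H43X.setB p W B α, fun G _ => Pool.Agent.H43X.setC p G,
    Pool.Agent.H43X.allFull p, ?_, ?_, ?_⟩
  · intro W W' _ _ _ f h
    exact Pool.Agent.H43X.step_occurs p f h
  · intro K L B _ _ _ _ _ _ _ _ α _ hw χ n hn
    exact Pool.Agent.H43X.weak_solvable p α hw χ n hn
  · intro K L _ _ _ _ _ _ W _ f e₀ hf
    exact ⟨Pool.Agent.H43X.step_regularP p f (fun i => Pool.Agent.H43X.step_main p (hf i)) e₀,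
      fun hK => Pool.Agent.H43X.step_properP p hK f
        (fun i => Pool.Agent.H43X.step_main p (hf i)) e₀⟩

end Pool.Agent.Results.MP_7f581e_nt.AlternatingSteps
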