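import Mathlib
import Pool.Agent.XE31.D2.FinK
import Pool.Agent.H43X.GRB
import Pool.Agent.H43X.DEN
import Pool.Agent.XE31.D2.Aps
import Pool.Agent.H43X.CNT

/-!
# Normal subgroups `G ≀ A_n` over `F_p(X)`, every prime `p`, almost all multiples `n` of `lcm(2, p)`

Let `p` be ANY prime number. There are sets `A(G)` of natural numbers (`G` runs through the groups)
such that almost all multiples of `lcm(2, p)` are in `A(G)` (the exceptions have natural density
zero), and such that for all even `b ≥ 4` and all odd `r ≥ ((3 |G| b! + 2)!) ^ 3` all large numbers
`n ≡ b r p` modulo `2 b r p` (for `p = 2`: all large `n ≡ b r` modulo `8 b r`) are in `A(G)`, with the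
following properties. Below, `G` is a nontrivial finite perfect group with trivial centre (no
realization of `G` is assumed) and `n ∈ A(G)`; `X` is a group with a normal subgroup `N` of finite
index, the extension `1 → N → X → X / N → 1` is arbitrary, and `P` is any normal `p`-subgroup of
`X / N`.

1. Let `N ≃ G ≀ A_n`, `Y = (X / N) / P`. There are a finite group `Q` and a surjection `Q → Y` whose
   kernel is contained in the Frattini subgroup of `Q`, nilpotent, of order prime to `p` and dividing
   `|G|` (with prime divisors dividing `|Y|`), such that `X` occurs over `F_p(X)` if `Q` does. So if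
   `Y` is solvable, `X` occurs over `F_p(X)` if all finite solvable groups do (the theorem of
   Shafarevich). If no prime other than `p` divides both `|Y|` and `|G|`, then `X` occurs over
   `F_p(X)` if and only if `Y` does. If all Sylow subgroups of `Y` are cyclic, `X` occurs over
   `F_p(X)`. All embedding problems with kernel `G ≀ A_n` over fields of characteristic `p` with
   projective absolute Galois group (e.g. finite fields) have regular solutions.
2. Let `T` be in the smallest class containing the `G ≀ A_n` with `Inn G` complemented in `Aut G`, the
   `G ≀ S_n` (`G` centreless, `Inn G` complemented, not necessarily perfect, `n ≥ ((3|G|+2)!)^3`), the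
   complete groups which occur regularly over `F_p`, and closed under direct products, direct
   factors, characteristic extensions and `T ↦ T ≀ S_n`. If `N ≃ T`, then `X` occurs over `F_p(X)` if
   and only if `(X / N) / P` does; and all embedding problems with kernel `T` over fields `K` of
   characteristic `p` have regular solutions over `K(t)`, and proper ones if `K` is Hilbertian.

The same for `k(X)`, `k` any field of characteristic `p`, for all Hilbertian fields of characteristic
`p`, and for regular realizations over all fields of characteristic `p`.

Compared with `Pool.Agent.Results.MP_7f581e_nt.AlternatingKernels` (there `p` is odd and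
`n = q + 6 r p + 1` with a prime `q ≡ -1` modulo `12 r p`, a set of density zero) the prime `p = 2` is
new (a parity theorem, by Witt vectors and discriminants modulo `8`), and so are the degrees: the
groups `G ≀ A_n` are realized with blocks of any even size, for all large numbers of a residue class
and for almost all multiples of `lcm(2, p)`. Joint work with helper43.
-/

set_option autoImplicit false

namespace Pool.Agent.Results.MP_7f581e_nt.KernelsOfAlmostEveryDegree

open Pool.Agent.N70.EP.Voc (Centreless AltWreath)
open Pool.Agent.N70.PP.Voc (GeneralTheorem KernelTheorem)
open Pool.Agent.H43X.VocD (AlmostAllMultiples Degrees Bound)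
open Pool.Agent.XE31.D2 (KernelsD)

theorem result (p : ℕ) [Fact p.Prime] : ∃ A : (∀ (G : Type) [Group G], Set ℕ),
    (∀ (G : Type) [Group G], AlmostAllMultiples (Nat.lcm 2 p) (fun n => n ∈ A G)) ∧
    (∀ (G : Type) [Group G] (b r : ℕ), Even b → 4 ≤ b → Odd r → Bound (Nat.card G) b ≤ r →
      ∃ n₀ : ℕ, ∀ n ≥ n₀, n ∈ Degrees p (b * r) → n ∈ A G) ∧
    (∀ (G : Type) [Group G], Centreless G → commutator G = ⊤ → ∀ n ∈ A G,
      GeneralTheorem p G (AltWreath G n)) ∧
    ∀ (T : Type) [Group T], KernelsD A p T → KernelTheorem p T :=
  Pool.Agent.XE31.D2.kernels_of
    (Pool.Agent.H43X.t_DEN Pool.Agent.XE31.D2.t_APS Pool.Agent.H43X.t_CNT) Pool.Agent.H43X.t_GRB p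

end Pool.Agent.Results.MP_7f581e_nt.KernelsOfAlmostEveryDegree
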